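import Mathlib

/-!
# Coinciding prime sets for two Fibonacci-type recurrences (MP_dbbccf_nt)

Author: helper34.

`N = b ^ 2 - a b - a ^ 2` changes its sign under the shift, so an odd period modulo `p` forces
`N = 0` modulo `p`; then the sequence is geometric with a ratio `r`, `r ^ 2 = r + 1`, of odd order,
which is a square, and all Legendre symbols agree.  So the sets `theta a b k`, `k` odd, are known
explicitly; they are finite, and `theta a b (-1)` is the set of the odd primes which divide `a` and `b`.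
-/

set_option autoImplicit false

namespace Pool.Agent.H34.PL

/-- The `(a, b)`-Fibonacci sequence. -/
def F (a b : ℤ) : ℕ → ℤ
  | 0 => a
  | 1 => b
  | n + 2 => F a b (n + 1) + F a b n

/-- The period of the `(a, b)`-sequence modulo `p`. -/
noncomputable def per (p : ℕ) (a b : ℤ) : ℕ :=
  sInf {n : ℕ | 0 < n ∧ ∀ i : ℕ, F a b (i + n) ≡ F a b i [ZMOD p]}

/-- The number of indices `i` with `0 ≤ i < per p a b` and `(F_i / p) = e`. -/
noncomputable def cnt (p : ℕ) [Fact p.Prime] (a b : ℤ) (e : ℤ) : ℕ :=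
  ((Finset.range (per p a b)).filter (fun i => legendreSym p (F a b i) = e)).card

/-- `p` is an odd prime which is a `k`-PL prime relative to `(a, b)`. -/
def IsPL (a b : ℤ) (k : ℤ) (p : ℕ) : Prop :=
  p ≠ 2 ∧ ∃ _ : Fact p.Prime, (cnt p a b 1 : ℤ) - cnt p a b (-1) - cnt p a b 0 = k

/-- The set of all odd primes which are `k`-PL primes relative to `(a, b)`. -/
def theta (a b k : ℤ) : Set ℕ := {p | IsPL a b k p}

/-- The set of integers `k` for which there are `k`-PL primes relative to `(a, b)`. -/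
def chi (a b : ℤ) : Set ℤ := {k | (theta a b k).Nonempty}

theorem cnt_sum (p : ℕ) [Fact p.Prime] (a b : ℤ) :
    cnt p a b 1 + cnt p a b (-1) + cnt p a b 0 = per p a b := by
  unfold cnt
  rw [Finset.card_filter, Finset.card_filter, Finset.card_filter, ← Finset.sum_add_distrib,
    ← Finset.sum_add_distrib]
  have h : ∀ i ∈ Finset.range (per p a b),
      (((if legendreSym p (F a b i) = 1 then 1 else 0) +
        (if legendreSym p (F a b i) = -1 then 1 else 0)) +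
        (if legendreSym p (F a b i) = 0 then 1 else 0) : ℕ) = 1 := by
    intro i _
    by_cases h0 : ((F a b i : ℤ) : ZMod p) = 0
    · have := (legendreSym.eq_zero_iff p (F a b i)).2 h0
      simp [this]
    · rcases legendreSym.eq_one_or_neg_one p h0 with h1 | h1 <;> simp [h1]
  rw [Finset.sum_congr rfl h]
  simp

section
variable (p : ℕ) [Fact p.Prime] (a b : ℤ)

theorem f_rec (i : ℕ) : ((F a b (i + 2) : ℤ) : ZMod p) =
    ((F a b (i + 1) : ℤ) : ZMod p) + ((F a b i : ℤ) : ZMod p) := by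
  rw [show F a b (i + 2) = F a b (i + 1) + F a b i from rfl]
  push_cast
  rfl

/-- the norm form -/
def nm (i : ℕ) : ZMod p :=
  ((F a b (i + 1) : ℤ) : ZMod p) ^ 2 - ((F a b (i + 1) : ℤ) : ZMod p) * ((F a b i : ℤ) : ZMod p) -
    ((F a b i : ℤ) : ZMod p) ^ 2

theorem nm_succ (i : ℕ) : nm p a b (i + 1) = - nm p a b i := by
  unfold nm
  rw [f_rec p a b i]
  ring

theorem nm_eq (n : ℕ) : nm p a b n = (-1) ^ n * nm p a b 0 := by
  induction n with
  | zero => simp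
  | succ n ih => rw [nm_succ, ih, pow_succ]; ring

theorem per_spec (h : 0 < per p a b) :
    ∀ i : ℕ, ((F a b (i + per p a b) : ℤ) : ZMod p) = ((F a b i : ℤ) : ZMod p) := by
  have hne : {n : ℕ | 0 < n ∧ ∀ i : ℕ, F a b (i + n) ≡ F a b i [ZMOD p]}.Nonempty := by
    by_contra h1
    rw [Set.not_nonempty_iff_eq_empty] at h1
    unfold per at h
    rw [h1, Nat.sInf_empty] at h
    exact lt_irrefl _ h
  have h2 := (Nat.sInf_mem hne).2
  intro i
  exact (ZMod.intCast_eq_intCast_iff _ _ _).2 (h2 i)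

theorem odd_norm (hp : p ≠ 2) (h : Odd (per p a b)) : nm p a b 0 = 0 := by
  have h0 : 0 < per p a b := h.pos
  have h1 : nm p a b (per p a b) = nm p a b 0 := by
    unfold nm
    have e1 := per_spec p a b h0 0
    have e2 := per_spec p a b h0 1
    rw [zero_add] at e1
    rw [add_comm 1] at e2
    rw [e1, e2]
  rw [nm_eq, h.neg_one_pow] at h1
  have h2 : (2 : ZMod p) * nm p a b 0 = 0 := by linear_combination -h1
  rcases mul_eq_zero.1 h2 with h3 | h3
  · exfalso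
    have : (p : ℕ) ∣ 2 := (ZMod.natCast_eq_zero_iff 2 p).1 (by exact_mod_cast h3)
    exact hp ((Nat.prime_dvd_prime_iff_eq (Fact.out) Nat.prime_two).1 this)
  · exact h3

/-- If the period is odd and `p` does not divide both of `a`, `b`, the sequence is geometric modulo
`p`, with a ratio which is a square: all Legendre symbols agree, and none is zero. -/
theorem odd_leg (hp : p ≠ 2) (h : Odd (per p a b)) (hab : ¬ ((p : ℤ) ∣ a ∧ (p : ℤ) ∣ b)) :
    ((a : ℤ) : ZMod p) ≠ 0 ∧ ∀ i, legendreSym p (F a b i) = legendreSym p a := by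
  have hN := odd_norm p a b hp h
  have h0 : 0 < per p a b := h.pos
  unfold nm at hN
  simp only [zero_add] at hN
  have hF0 : F a b 0 = a := rfl
  have hF1 : F a b 1 = b := rfl
  rw [hF0, hF1] at hN
  have ha : ((a : ℤ) : ZMod p) ≠ 0 := by
    intro ha
    rw [ha] at hN
    have hb : ((b : ℤ) : ZMod p) = 0 := by
      have : ((b : ℤ) : ZMod p) ^ 2 = 0 := by linear_combination hN
      exact pow_eq_zero_iff (two_ne_zero) |>.1 this
    exact hab ⟨(ZMod.intCast_zmod_eq_zero_iff_dvd a p).1 ha,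
      (ZMod.intCast_zmod_eq_zero_iff_dvd b p).1 hb⟩
  refine ⟨ha, ?_⟩
  obtain ⟨r, hr⟩ : ∃ r : ZMod p, r = ((b : ℤ) : ZMod p) / ((a : ℤ) : ZMod p) := ⟨_, rfl⟩
  have hb : ((b : ℤ) : ZMod p) = ((a : ℤ) : ZMod p) * r := by rw [hr]; field_simp
  have hr2 : r ^ 2 = r + 1 := by
    have : ((a : ℤ) : ZMod p) ^ 2 * (r ^ 2 - (r + 1)) = 0 := by
      rw [hb] at hN
      linear_combination hN
    rcases mul_eq_zero.1 this with h1 | h1
    · exact absurd (pow_eq_zero_iff (two_ne_zero) |>.1 h1) ha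
    · linear_combination h1
  have hg : ∀ n : ℕ, ((F a b n : ℤ) : ZMod p) = ((a : ℤ) : ZMod p) * r ^ n ∧
      ((F a b (n + 1) : ℤ) : ZMod p) = ((a : ℤ) : ZMod p) * r ^ (n + 1) := by
    intro n
    induction n with
    | zero => exact ⟨by rw [hF0]; simp, by rw [zero_add, hF1, hb]; simp⟩
    | succ n ih =>
      refine ⟨ih.2, ?_⟩
      rw [show n + 1 + 1 = n + 2 from rfl, f_rec, ih.1, ih.2]
      linear_combination (-((a : ℤ) : ZMod p) * r ^ n) * hr2
  have hrP : r ^ per p a b = 1 := by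
    have e1 := per_spec p a b h0 0
    rw [zero_add, (hg _).1, hF0] at e1
    have : ((a : ℤ) : ZMod p) * (r ^ per p a b - 1) = 0 := by linear_combination e1
    rcases mul_eq_zero.1 this with h1 | h1
    · exact absurd h1 ha
    · linear_combination h1
  have hr0 : r ≠ 0 := by
    intro h1
    rw [h1, zero_pow h0.ne'] at hrP
    exact zero_ne_one hrP
  obtain ⟨m, hm⟩ := h
  have hsq : r = (r ^ (m + 1)) ^ 2 := by
    have : (r ^ (m + 1)) ^ 2 = r ^ per p a b * r := by rw [hm]; ring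
    rw [this, hrP, one_mul]
  intro i
  unfold legendreSym
  rw [(hg i).1, map_mul, map_pow]
  have hr1 : quadraticChar (ZMod p) r = 1 := by
    rw [hsq, map_pow]
    exact quadraticChar_sq_one (pow_ne_zero _ hr0)
  rw [hr1, one_pow, mul_one]

theorem odd_value (hp : p ≠ 2) (h : Odd (per p a b)) (hab : ¬ ((p : ℤ) ∣ a ∧ (p : ℤ) ∣ b)) :
    (cnt p a b 1 : ℤ) - cnt p a b (-1) - cnt p a b 0 = legendreSym p a * per p a b := by
  obtain ⟨ha, hl⟩ := odd_leg p a b hp h hab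
  unfold cnt
  simp only [hl]
  rcases legendreSym.eq_one_or_neg_one p ha with h1 | h1
  · simp [h1]
  · simp [h1]

theorem per_one_of_dvd (hab : (p : ℤ) ∣ a ∧ (p : ℤ) ∣ b) : per p a b = 1 ∧
    (cnt p a b 1 : ℤ) - cnt p a b (-1) - cnt p a b 0 = -1 := by
  have hz : ∀ n : ℕ, (p : ℤ) ∣ F a b n ∧ (p : ℤ) ∣ F a b (n + 1) := by
    intro n
    induction n with
    | zero => exact hab
    | succ n ih => exact ⟨ih.2, dvd_add ih.2 ih.1⟩
  have h1 : per p a b = 1 := by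
    unfold per
    have hmem : 1 ∈ {n : ℕ | 0 < n ∧ ∀ i : ℕ, F a b (i + n) ≡ F a b i [ZMOD p]} :=
      ⟨one_pos, fun i => (Int.modEq_zero_iff_dvd.2 (hz (i + 1)).1).trans
          (Int.modEq_zero_iff_dvd.2 (hz i).1).symm⟩
    have h2 := Nat.sInf_le hmem
    have h3 := (Nat.sInf_mem ⟨1, hmem⟩).1
    omega
  refine ⟨h1, ?_⟩
  have hl : legendreSym p (F a b 0) = 0 :=
    (legendreSym.eq_zero_iff p _).2 ((ZMod.intCast_zmod_eq_zero_iff_dvd _ p).2 (hz 0).1)
  unfold cnt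
  rw [h1]
  simp [Finset.filter_singleton, hl]

theorem parity {k : ℤ} (hk : (cnt p a b 1 : ℤ) - cnt p a b (-1) - cnt p a b 0 = k) (ho : Odd k) :
    Odd (per p a b) := by
  have h := cnt_sum p a b
  obtain ⟨m, hm⟩ := ho
  rw [Nat.odd_iff]
  omega

theorem per_ne_one (hab : ¬ ((p : ℤ) ∣ a ∧ (p : ℤ) ∣ b)) : per p a b ≠ 1 := by
  intro h
  have h0 : 0 < per p a b := by omega
  have e1 := per_spec p a b h0 0
  have e2 := per_spec p a b h0 1
  rw [h] at e1 e2
  have e3 := f_rec p a b 0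
  simp only [zero_add] at e1 e3
  have e4 : ((F a b 0 : ℤ) : ZMod p) = 0 := by
    have e2' : ((F a b 2 : ℤ) : ZMod p) = ((F a b 1 : ℤ) : ZMod p) := e2
    linear_combination e2' - e3
  have e5 : ((F a b 1 : ℤ) : ZMod p) = 0 := by rw [e1, e4]
  exact hab ⟨(ZMod.intCast_zmod_eq_zero_iff_dvd a p).1 e4,
    (ZMod.intCast_zmod_eq_zero_iff_dvd b p).1 e5⟩

theorem neg_one_iff (hp : p ≠ 2) :
    (cnt p a b 1 : ℤ) - cnt p a b (-1) - cnt p a b 0 = -1 ↔ ((p : ℤ) ∣ a ∧ (p : ℤ) ∣ b) := by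
  constructor
  · intro h
    by_contra hab
    have ho := parity p a b h (by decide)
    rw [odd_value p a b hp ho hab] at h
    have h1 := per_ne_one p a b hab
    obtain ⟨ha, -⟩ := odd_leg p a b hp ho hab
    have h2 := ho.pos
    rcases legendreSym.eq_one_or_neg_one p ha with h3 | h3 <;> rw [h3] at h <;> omega
  · intro h
    exact (per_one_of_dvd p a b h).2

end

theorem norm_ne_zero {a b : ℤ} (h : (a, b) ≠ (0, 0)) : b ^ 2 - a * b - a ^ 2 ≠ 0 := by
  intro h0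
  by_cases ha : a = 0
  · subst ha
    have : b ^ 2 = 0 := by linear_combination h0
    have : b = 0 := pow_eq_zero_iff (two_ne_zero) |>.1 this
    exact h (by rw [this])
  · have h5 : Irrational (Real.sqrt (5 : ℕ)) := Nat.Prime.irrational_sqrt (by norm_num)
    have har : (a : ℝ) ≠ 0 := by exact_mod_cast ha
    have e : (((2 * b - a : ℤ) : ℝ) / (a : ℝ)) ^ 2 = 5 := by
      rw [div_pow, div_eq_iff (pow_ne_zero 2 har)]
      have h0' : ((b : ℝ) ^ 2 - a * b - a ^ 2) = 0 := by exact_mod_cast h0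
      push_cast
      linear_combination 4 * h0'
    apply h5
    refine ⟨|((2 * b - a : ℤ) : ℚ) / (a : ℚ)|, ?_⟩
    push_cast
    rw [← Real.sqrt_sq_eq_abs]
    congr 1
    have := e
    push_cast at this
    rw [this]

/-- The set `theta a b (-1)` consists of the odd primes which divide both `a` and `b`. -/
theorem theta_neg_one (a b : ℤ) :
    theta a b (-1) = {p : ℕ | p.Prime ∧ p ≠ 2 ∧ (p : ℤ) ∣ a ∧ (p : ℤ) ∣ b} := by
  ext p
  constructor
  · rintro ⟨hp, hF, h⟩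
    have := hF
    exact ⟨hF.out, hp, (neg_one_iff p a b hp).1 h⟩
  · rintro ⟨h1, h2, h3⟩
    have : Fact p.Prime := ⟨h1⟩
    exact ⟨h2, this, (neg_one_iff p a b h2).2 h3⟩

/-- For odd `k ≠ -1`: description of `theta a b k`. -/
theorem theta_odd (a b k : ℤ) (hk : Odd k) (hk1 : k ≠ -1) (p : ℕ) (hF : Fact p.Prime) (hp : p ≠ 2) :
    p ∈ theta a b k ↔ ¬ ((p : ℤ) ∣ a ∧ (p : ℤ) ∣ b) ∧ Odd (per p a b) ∧
      legendreSym p a * per p a b = k := by
  constructor
  · rintro ⟨-, hF', h⟩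
    have hn : ¬ ((p : ℤ) ∣ a ∧ (p : ℤ) ∣ b) := fun h1 =>
      hk1 (h.symm.trans ((neg_one_iff p a b hp).2 h1))
    have ho := parity p a b h hk
    exact ⟨hn, ho, (odd_value p a b hp ho hn).symm.trans h⟩
  · rintro ⟨h1, h2, h3⟩
    exact ⟨hp, hF, (odd_value p a b hp h2 h1).trans h3⟩

theorem theta_odd_dvd (a b k : ℤ) (hk : Odd k) (p : ℕ) (h : p ∈ theta a b k) :
    (p : ℤ) ∣ b ^ 2 - a * b - a ^ 2 := by
  obtain ⟨hp, hF, h1⟩ := h
  have := hF
  have ho := parity p a b h1 hk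
  have hN := odd_norm p a b hp ho
  rw [← ZMod.intCast_zmod_eq_zero_iff_dvd]
  unfold nm at hN
  have hF0 : F a b 0 = a := rfl
  have hF1 : F a b (0 + 1) = b := rfl
  rw [hF0, hF1] at hN
  push_cast
  linear_combination hN

/-- the state `(F_n, F_(n+1))` modulo `p` -/
def st (p : ℕ) (x y : ZMod p) (n : ℕ) : ZMod p × ZMod p :=
  (fun s : ZMod p × ZMod p => (s.2, s.2 + s.1))^[n] (x, y)

theorem st_F (p : ℕ) [Fact p.Prime] (a b : ℤ) (n : ℕ) :
    st p a b n = (((F a b n : ℤ) : ZMod p), ((F a b (n + 1) : ℤ) : ZMod p)) := by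
  induction n with
  | zero => rfl
  | succ n ih =>
    unfold st at ih ⊢
    rw [Function.iterate_succ_apply', ih]
    refine Prod.ext rfl ?_
    exact (f_rec p a b n).symm

theorem per_eq (p : ℕ) [Fact p.Prime] (a b : ℤ) (P : ℕ) (hP : 0 < P)
    (h1 : st p a b P = (((a : ℤ) : ZMod p), ((b : ℤ) : ZMod p)))
    (h2 : ∀ n : ℕ, 0 < n → n < P → st p a b n ≠ (((a : ℤ) : ZMod p), ((b : ℤ) : ZMod p))) :
    per p a b = P := by
  have hmem : P ∈ {n : ℕ | 0 < n ∧ ∀ i : ℕ, F a b (i + n) ≡ F a b i [ZMOD p]} := by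
    refine ⟨hP, fun i => ?_⟩
    rw [← ZMod.intCast_eq_intCast_iff]
    have e : st p a b (i + P) = st p a b i := by
      have h1' := h1
      unfold st at h1' ⊢
      rw [Function.iterate_add_apply, h1']
    rw [st_F, st_F] at e
    exact congrArg Prod.fst e
  refine le_antisymm (Nat.sInf_le hmem) (le_csInf ⟨P, hmem⟩ ?_)
  intro n hn
  by_contra hlt
  refine h2 n hn.1 (not_le.1 hlt) ?_
  rw [st_F]
  have e0 := (ZMod.intCast_eq_intCast_iff _ _ p).2 (hn.2 0)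
  have e1 := (ZMod.intCast_eq_intCast_iff _ _ p).2 (hn.2 1)
  rw [zero_add] at e0
  rw [add_comm 1] at e1
  exact Prod.ext e0 e1

/-- value computed from states -/
def val (p : ℕ) (q : ZMod p → ℤ) (x y : ZMod p) (P : ℕ) : ℤ :=
  (((Finset.range P).filter (fun i => q (st p x y i).1 = 1)).card : ℤ) -
  ((Finset.range P).filter (fun i => q (st p x y i).1 = -1)).card -
  ((Finset.range P).filter (fun i => q (st p x y i).1 = 0)).card

theorem val_eq (p : ℕ) [Fact p.Prime] (a b : ℤ) (q : ZMod p → ℤ)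
    (hq : ∀ z, quadraticChar (ZMod p) z = q z) :
    (cnt p a b 1 : ℤ) - cnt p a b (-1) - cnt p a b 0 = val p q a b (per p a b) := by
  have h : ∀ i, legendreSym p (F a b i) = q (st p a b i).1 := by
    intro i
    rw [st_F]
    exact hq _
  unfold cnt val
  simp only [h]

def q3 (z : ZMod 3) : ℤ := if z = 0 then 0 else if z = 1 then 1 else -1
def q5 (z : ZMod 5) : ℤ := if z = 0 then 0 else if z = 1 ∨ z = 4 then 1 else -1

instance : Fact (Nat.Prime 3) := ⟨by norm_num⟩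
instance : Fact (Nat.Prime 5) := ⟨by norm_num⟩

theorem c3 : ∀ x y : ZMod 3, ¬ (x = 0 ∧ y = 0) → st 3 x y 8 = (x, y) ∧
    (∀ n : Fin 8, 0 < n.1 → st 3 x y n.1 ≠ (x, y)) ∧ val 3 q3 x y 8 = -2 := by
  decide +kernel

theorem c5 : ∀ x y : ZMod 5, ¬ (x = 0 ∧ y = 0) → (st 5 x y 20 = (x, y) ∧
    (∀ n : Fin 20, 0 < n.1 → st 5 x y n.1 ≠ (x, y)) ∧ val 5 q5 x y 20 = -4) ∨
    (st 5 x y 4 = (x, y) ∧
    (∀ n : Fin 4, 0 < n.1 → st 5 x y n.1 ≠ (x, y)) ∧ val 5 q5 x y 4 = 0) := by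
  decide +kernel

theorem mem3 (a b : ℤ) (h : ¬ ((3 : ℤ) ∣ a ∧ (3 : ℤ) ∣ b)) : 3 ∈ theta a b (-2) := by
  refine ⟨by norm_num, inferInstance, ?_⟩
  have h' : ¬ (((a : ℤ) : ZMod 3) = 0 ∧ ((b : ℤ) : ZMod 3) = 0) := fun h1 =>
    h ⟨(ZMod.intCast_zmod_eq_zero_iff_dvd a 3).1 h1.1, (ZMod.intCast_zmod_eq_zero_iff_dvd b 3).1 h1.2⟩
  obtain ⟨h1, h2, h3⟩ := c3 _ _ h'
  rw [val_eq 3 a b q3 (by decide +kernel),
    per_eq 3 a b 8 (by norm_num) h1 (fun n g1 g2 => h2 ⟨n, g2⟩ g1)]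
  exact h3

theorem mem5 (a b : ℤ) (h : ¬ ((5 : ℤ) ∣ a ∧ (5 : ℤ) ∣ b)) :
    5 ∈ theta a b (-4) ∨ 5 ∈ theta a b 0 := by
  have h' : ¬ (((a : ℤ) : ZMod 5) = 0 ∧ ((b : ℤ) : ZMod 5) = 0) := fun h1 =>
    h ⟨(ZMod.intCast_zmod_eq_zero_iff_dvd a 5).1 h1.1, (ZMod.intCast_zmod_eq_zero_iff_dvd b 5).1 h1.2⟩
  rcases c5 _ _ h' with ⟨h1, h2, h3⟩ | ⟨h1, h2, h3⟩
  · left
    refine ⟨by norm_num, inferInstance, ?_⟩
    rw [val_eq 5 a b q5 (by decide +kernel),
      per_eq 5 a b 20 (by norm_num) h1 (fun n g1 g2 => h2 ⟨n, g2⟩ g1)]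
    exact h3
  · right
    refine ⟨by norm_num, inferInstance, ?_⟩
    rw [val_eq 5 a b q5 (by decide +kernel),
      per_eq 5 a b 4 (by norm_num) h1 (fun n g1 g2 => h2 ⟨n, g2⟩ g1)]
    exact h3

theorem F_mul (s a b : ℤ) : ∀ n, F (s * a) (s * b) n = s * F a b n ∧
    F (s * a) (s * b) (n + 1) = s * F a b (n + 1) := by
  intro n
  induction n with
  | zero => exact ⟨rfl, rfl⟩
  | succ n ih =>
    refine ⟨ih.2, ?_⟩
    show F (s * a) (s * b) (n + 1) + F (s * a) (s * b) n = s * (F a b (n + 1) + F a b n)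
    rw [ih.1, ih.2]
    ring

theorem scale (p : ℕ) [Fact p.Prime] (s a b : ℤ) (hs : ¬ (p : ℤ) ∣ s) (e : ℤ) :
    cnt p (s ^ 2 * a) (s ^ 2 * b) e = cnt p a b e := by
  have hs0 : ((s : ℤ) : ZMod p) ≠ 0 := fun h => hs ((ZMod.intCast_zmod_eq_zero_iff_dvd s p).1 h)
  have hF : ∀ n, F (s ^ 2 * a) (s ^ 2 * b) n = s ^ 2 * F a b n := fun n => (F_mul _ a b n).1
  have hper : per p (s ^ 2 * a) (s ^ 2 * b) = per p a b := by
    unfold per
    congr 1
    ext n
    simp only [Set.mem_ofPred_eq, hF]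
    refine and_congr_right fun _ => forall_congr' fun i => ?_
    rw [← ZMod.intCast_eq_intCast_iff, ← ZMod.intCast_eq_intCast_iff]
    push_cast
    constructor
    · intro h
      exact mul_left_cancel₀ (pow_ne_zero 2 hs0) h
    · intro h
      rw [h]
  unfold cnt
  rw [hper]
  congr 1
  refine Finset.filter_congr fun i _ => ?_
  rw [hF, legendreSym.mul]
  have : legendreSym p (s ^ 2) = 1 := legendreSym.sq_one' p hs0
  rw [this, one_mul]

/-- Multiplying a pair by a square changes the values only at the primes which divide the factor. -/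
theorem theta_scale (s a b k : ℤ) (hk : k ≠ -1)
    (h : ∀ q : ℕ, q.Prime → q ≠ 2 → (q : ℤ) ∣ s → q ∉ theta a b k) :
    theta a b k = theta (s ^ 2 * a) (s ^ 2 * b) k := by
  ext p
  constructor
  · rintro ⟨hp, hF, h1⟩
    have hs : ¬ (p : ℤ) ∣ s := fun hs => h p hF.out hp hs ⟨hp, hF, h1⟩
    refine ⟨hp, hF, ?_⟩
    rw [scale p s a b hs, scale p s a b hs, scale p s a b hs]
    exact h1
  · rintro ⟨hp, hF, h1⟩
    have hs : ¬ (p : ℤ) ∣ s := by
      intro hs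
      have h2 := (per_one_of_dvd p (s ^ 2 * a) (s ^ 2 * b)
        ⟨Dvd.dvd.mul_right (dvd_pow hs two_ne_zero) a, Dvd.dvd.mul_right (dvd_pow hs two_ne_zero) b⟩).2
      exact hk (h1.symm.trans h2)
    refine ⟨hp, hF, ?_⟩
    rw [scale p s a b hs, scale p s a b hs, scale p s a b hs] at h1
    exact h1

theorem scaled (a b s : ℤ) (h3 : ¬ ((3 : ℤ) ∣ a ∧ (3 : ℤ) ∣ b)) (h5 : ¬ ((5 : ℤ) ∣ a ∧ (5 : ℤ) ∣ b))
    (hs : ∀ q q' : ℕ, q.Prime → q'.Prime → q ≠ 2 → q' ≠ 2 → (q : ℤ) ∣ s → (q' : ℤ) ∣ s →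
      ¬ ((q : ℤ) ∣ a ∧ (q : ℤ) ∣ b) → ¬ ((q' : ℤ) ∣ a ∧ (q' : ℤ) ∣ b) → q = q') :
    ∃ k ∈ chi a b, k ∈ chi (s ^ 2 * a) (s ^ 2 * b) ∧
      theta a b k = theta (s ^ 2 * a) (s ^ 2 * b) k := by
  have m3 := mem3 a b h3
  obtain ⟨K, hK, m5⟩ : ∃ K : ℤ, (K = -4 ∨ K = 0) ∧ 5 ∈ theta a b K := by
    rcases mem5 a b h5 with h | h
    · exact ⟨-4, Or.inl rfl, h⟩
    · exact ⟨0, Or.inr rfl, h⟩
  have fin : ∀ k : ℤ, k ≠ -1 → (theta a b k).Nonempty →
      (∀ q : ℕ, q.Prime → q ≠ 2 → (q : ℤ) ∣ s → q ∉ theta a b k) →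
      ∃ k ∈ chi a b, k ∈ chi (s ^ 2 * a) (s ^ 2 * b) ∧
      theta a b k = theta (s ^ 2 * a) (s ^ 2 * b) k := by
    intro k hk hne hq
    have e := theta_scale s a b k hk hq
    exact ⟨k, hne, by show (theta (s ^ 2 * a) (s ^ 2 * b) k).Nonempty; rw [← e]; exact hne, e⟩
  by_cases hc : ∀ q : ℕ, q.Prime → q ≠ 2 → (q : ℤ) ∣ s → q ∉ theta a b (-2)
  · exact fin (-2) (by norm_num) ⟨3, m3⟩ hc
  · push Not at hc
    obtain ⟨q, g1, g2, g3, g4⟩ := hc
    refine fin K (by rcases hK with h | h <;> rw [h] <;> norm_num) ⟨5, m5⟩ ?_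
    intro q' f1 f2 f3 f4
    have n1 : ¬ ((q : ℤ) ∣ a ∧ (q : ℤ) ∣ b) := by
      obtain ⟨e1, e2, e3⟩ := g4
      intro hd
      have e4 := (per_one_of_dvd q a b hd).2
      rw [e4] at e3
      norm_num at e3
    have n2 : ¬ ((q' : ℤ) ∣ a ∧ (q' : ℤ) ∣ b) := by
      obtain ⟨e1, e2, e3⟩ := f4
      intro hd
      have e4 := (per_one_of_dvd q' a b hd).2
      rw [e4] at e3
      rcases hK with h | h <;> rw [h] at e3 <;> norm_num at e3
    have e := hs q q' g1 f1 g2 f2 g3 f3 n1 n2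
    subst e
    obtain ⟨e1, e2, e3⟩ := g4
    obtain ⟨e1', e2', e3'⟩ := f4
    have : (-2 : ℤ) = K := e3.symm.trans e3'
    rcases hK with h | h <;> rw [h] at this <;> norm_num at this

theorem single (a b : ℤ) (p : ℕ) (hp : p.Prime) (hp2 : p ≠ 2)
    (h : ∀ q : ℕ, q.Prime → q ≠ 2 → (Odd (per q a b) ↔ q = p)) :
    ∃ k : ℤ, theta a b k = {p} := by
  have hF : Fact p.Prime := ⟨hp⟩
  have ho : Odd (per p a b) := (h p hp hp2).2 rfl
  have hk : Odd ((cnt p a b 1 : ℤ) - cnt p a b (-1) - cnt p a b 0) := by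
    have h1 := cnt_sum p a b
    obtain ⟨m, hm⟩ := ho
    rw [Int.odd_iff]
    omega
  refine ⟨_, Set.eq_singleton_iff_unique_mem.2 ⟨⟨hp2, hF, rfl⟩, ?_⟩⟩
  rintro q ⟨hq2, hFq, hq⟩
  exact (h q hFq.out hq2).1 (parity q a b hq hk)

end Pool.Agent.H34.PL
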